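import Pool.Agent.R703.FM.Tame

/-!
# Tame representations over abelian extensions of arbitrary number fields

Let `p` be an odd prime, `K/F` an abelian extension of number fields whose Galois group `Δ` has
exponent dividing `p - 1`, and `S` a set of primes of `F` which do not lie above `p`. Let `X` be the
set of the characters `χ : Δ → 𝔽_p^×` which occur in the class group of `K` modulo `p`, or whose
restriction to the decomposition group of some prime in `S` is the cyclotomic character modulo `p`.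
Suppose that no product of `i` members of `X` is in `X`, for `2 ≤ i ≤ m`. Let `p ^ e₁` kill the
`p`-part of the class group of `K`, let `p ^ (e₂ + 1)` not divide `N(P) - 1` for the primes `P` of
`K` above `S`, and put `e = e₁ + e₂`. Let `A` be a Noetherian local ring with finite residue field
of characteristic `p` in which `p` has order `e0`, for example a discrete valuation ring or a
regular local ring. Then every continuous representation `ρ` of the absolute Galois group of `K`
over `A` which is unramified outside `S` (so also at the primes above `p`) is trivial, if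

* `ρ` is unipotent modulo the maximal ideal and has dimension `n` with `n e e0 < m`, or
* all products of `r ≥ 1` matrices `ρ g - 1` vanish modulo the `s`-th power of the maximal ideal and
  `r e e0 < s m`; for instance `ρ` is trivial modulo `p ^ e`, of any dimension, and `m = 2`.
-/

set_option autoImplicit false

open NumberField IsLocalRing

namespace Pool.Agent.Results.MP_f68ac8_nt.AbelianExtensions

section

variable {F : Type} [Field F] {K : IntermediateField F (AlgebraicClosure F)}

/-- The homomorphism `f` from the absolute Galois group of `K` to a group `E` is unramified at all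
finite primes: for every maximal ideal `P` of the ring of all algebraic integers, the inertia group
at `P` in the absolute Galois group of `K` is mapped to `1`. -/
def Unramified {E : Type} [Group E] (f : K.fixingSubgroup →* E) : Prop :=
  ∀ P : Ideal (𝓞 (AlgebraicClosure F)), P.IsMaximal → ∀ τ : K.fixingSubgroup,
    (∀ x : 𝓞 (AlgebraicClosure F), (τ : Gal(AlgebraicClosure F/F)) • x - x ∈ P) → f τ = 1

/-- The homomorphism `f` from the absolute Galois group of `K` to a group `E` is unramified outside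
the set `S` of primes of `F`. -/
def UnramifiedOutside (S : Set (Ideal (𝓞 F))) {E : Type} [Group E]
    (f : K.fixingSubgroup →* E) : Prop :=
  ∀ P : Ideal (𝓞 (AlgebraicClosure F)), P.IsMaximal →
    P.comap (algebraMap (𝓞 F) (𝓞 (AlgebraicClosure F))) ∉ S → ∀ τ : K.fixingSubgroup,
      (∀ x : 𝓞 (AlgebraicClosure F), (τ : Gal(AlgebraicClosure F/F)) • x - x ∈ P) → f τ = 1

/-- Every `ρ g` is unipotent modulo the maximal ideal: some power of `ρ g - 1` has all entries in
the maximal ideal. -/
def ResiduallyUnipotent {A : Type} [CommRing A] [IsLocalRing A] {n : ℕ}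
    (ρ : K.fixingSubgroup →* GL (Fin n) A) : Prop :=
  ∀ g, ∃ M : ℕ, ∀ i j, (((ρ g : Matrix (Fin n) (Fin n) A) - 1) ^ M) i j ∈ maximalIdeal A

/-- All products of `r` matrices of the form `ρ g - 1` have all their entries in the `s`-th power
of the maximal ideal. -/
def Depth {A : Type} [CommRing A] [IsLocalRing A] {n : ℕ}
    (ρ : K.fixingSubgroup →* GL (Fin n) A) (r s : ℕ) : Prop :=
  ∀ (g : Fin r → K.fixingSubgroup) (i j : Fin n),
    (List.ofFn fun t => (ρ (g t) : Matrix (Fin n) (Fin n) A) - 1).prod i j ∈ maximalIdeal A ^ s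

end

/-- `σ` maps the maximal ideal `P` of the ring of all algebraic integers to itself and acts on its
residue field by `x ↦ x ^ Q`. -/
def ActsAsPower {F : Type} [Field F] (Q : ℕ) (P : Ideal (𝓞 (AlgebraicClosure F)))
    (σ : Gal(AlgebraicClosure F/F)) : Prop :=
  ∀ x : 𝓞 (AlgebraicClosure F), σ • x - x ^ Q ∈ P

/-- `p ^ e` kills the Galois group of every unramified finite abelian extension of `K` of `p`-power
degree (by class field theory, the `p`-part of the class group of `K`, if `p` is odd). -/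
def ClassGroupExponent {F : Type} [Field F] (K : IntermediateField F (AlgebraicClosure F))
    (p e : ℕ) : Prop :=
  ∀ (E : Type) [CommGroup E] [Finite E], IsPGroup p E → ∀ f : K.fixingSubgroup →* E,
    IsOpen (f.ker : Set K.fixingSubgroup) → Unramified f → ∀ g, f g ^ (p ^ e) = 1

/-- For every `P` above `S` some element of the absolute Galois group of `K` acts on the residue
field of `P` by `x ↦ x ^ Q`, where `p ^ (e + 1)` does not divide `Q - 1`. (One can take for `Q` the
norm of the prime of `K` below `P`, if `p ^ (e + 1)` does not divide `Q - 1`.) -/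
def TameExponent {F : Type} [Field F] (S : Set (Ideal (𝓞 F)))
    (K : IntermediateField F (AlgebraicClosure F)) (p e : ℕ) : Prop :=
  ∀ P : Ideal (𝓞 (AlgebraicClosure F)), P.IsMaximal →
    P.comap (algebraMap (𝓞 F) (𝓞 (AlgebraicClosure F))) ∈ S →
      ∃ σ ∈ K.fixingSubgroup, ∃ Q : ℕ, ActsAsPower Q P σ ∧ ¬ p ^ (e + 1) ∣ Q - 1

/-- The character `χ` of `Gal(K/F)` occurs in the Galois group of the maximal unramified elementary
abelian `p`-extension of `K` (by class field theory, in the class group of `K` modulo `p`): there is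
a nonzero unramified homomorphism `f` with open kernel from the absolute Galois group of `K` to
`ℤ/p` with `f (σ g σ⁻¹) = χ(σ) f(g)` for all `σ` in the absolute Galois group of `F`. -/
def OccursInClassGroup {F : Type} [Field F] (p : ℕ) (K : IntermediateField F (AlgebraicClosure F))
    [Normal F K] (χ : Gal(K/F) →* (ZMod p)ˣ) : Prop :=
  ∃ f : K.fixingSubgroup →* Multiplicative (ZMod p), IsOpen (f.ker : Set K.fixingSubgroup) ∧
    Unramified f ∧ (∃ g, f g ≠ 1) ∧
    ∀ (σ : Gal(AlgebraicClosure F/F)) (g g' : K.fixingSubgroup),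
      (g' : Gal(AlgebraicClosure F/F)) = σ * g * σ⁻¹ →
        Multiplicative.toAdd (f g') =
          (χ (AlgEquiv.restrictNormalHom K σ) : ZMod p) * Multiplicative.toAdd (f g)

/-- On the decomposition group of some prime in `S` the character `χ` is the cyclotomic character
modulo `p`: for some `P` above `S`, all `σ` that act on the residue field of `P` by `x ↦ x ^ Q`
satisfy `χ(σ) = Q` modulo `p`. -/
def CyclotomicAt {F : Type} [Field F] (p : ℕ) (S : Set (Ideal (𝓞 F)))
    (K : IntermediateField F (AlgebraicClosure F)) [Normal F K]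
    (χ : Gal(K/F) →* (ZMod p)ˣ) : Prop :=
  ∃ P : Ideal (𝓞 (AlgebraicClosure F)), P.IsMaximal ∧
    P.comap (algebraMap (𝓞 F) (𝓞 (AlgebraicClosure F))) ∈ S ∧
    ∀ (σ : Gal(AlgebraicClosure F/F)) (Q : ℕ), ActsAsPower Q P σ →
      (χ (AlgEquiv.restrictNormalHom K σ) : ZMod p) = Q

/-- the set `X` of characters -/
def Exceptional {F : Type} [Field F] (p : ℕ) (S : Set (Ideal (𝓞 F)))
    (K : IntermediateField F (AlgebraicClosure F)) [Normal F K] :
    Set (Gal(K/F) →* (ZMod p)ˣ) :=
  {χ | OccursInClassGroup p K χ ∨ CyclotomicAt p S K χ}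

/-- `p` has order `e0` with respect to the maximal ideal `𝔪` of `A`, and the multiplication by `p`
is injective from `𝔪 ^ k / 𝔪 ^ (k + 1)` to `𝔪 ^ (k + e0) / 𝔪 ^ (k + e0 + 1)` for all `k`. For a
discrete valuation ring, or a regular local ring, this means that `p` is in `𝔪 ^ e0` but not in
`𝔪 ^ (e0 + 1)`. -/
def HasOrder (A : Type) [CommRing A] [IsLocalRing A] (p e0 : ℕ) : Prop :=
  (p : A) ∈ maximalIdeal A ^ e0 ∧
    ∀ k : ℕ, ∀ x ∈ maximalIdeal A ^ k, (p : A) * x ∈ maximalIdeal A ^ (k + e0 + 1) →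
      x ∈ maximalIdeal A ^ (k + 1)

theorem result (p : ℕ) [Fact p.Prime] (F : Type) [Field F] [NumberField F]
    (K : IntermediateField F (AlgebraicClosure F)) [FiniteDimensional F K] [IsGalois F K]
    (hcomm : ∀ σ τ : Gal(K/F), σ * τ = τ * σ) (hexp : ∀ σ : Gal(K/F), σ ^ (p - 1) = 1)
    (S : Set (Ideal (𝓞 F))) (hS : ∀ 𝔮 ∈ S, (p : 𝓞 F) ∉ 𝔮) (e₁ e₂ m : ℕ)
    (he₁ : ClassGroupExponent K p e₁) (he₂ : TameExponent S K p e₂)
    (hX : ∀ i, 2 ≤ i → i ≤ m → ∀ χ : Fin i → (Gal(K/F) →* (ZMod p)ˣ),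
      (∀ j, χ j ∈ Exceptional p S K) → ∏ j, χ j ∉ Exceptional p S K)
    (A : Type) [CommRing A] [IsLocalRing A] [IsNoetherianRing A] [TopologicalSpace A]
    (hA : IsAdic (maximalIdeal A)) (hfin : Finite (ResidueField A))
    (hp : (p : A) ∈ maximalIdeal A) (e0 : ℕ) (hord : HasOrder A p e0) (n : ℕ)
    (ρ : K.fixingSubgroup →* GL (Fin n) A) (hρ : Continuous ρ) (hur : UnramifiedOutside S ρ)
    (hdepth : (n * (e₁ + e₂) * e0 < m ∧ ResiduallyUnipotent ρ) ∨
      ∃ r s : ℕ, 1 ≤ r ∧ r * (e₁ + e₂) * e0 < s * m ∧ Depth ρ r s) :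
    ∀ g, ρ g = 1 := by
  have hpp : p.Prime := Fact.out
  let inst : CommGroup Gal(K/F) := { (inferInstance : Group Gal(K/F)) with mul_comm := hcomm }
  have hfi : Finite (Gal(AlgebraicClosure F/F) ⧸ K.fixingSubgroup) := by
    have : CompactSpace Gal(AlgebraicClosure F/F) := inferInstance
    exact Subgroup.quotient_finite_of_isOpen _ (IntermediateField.fixingSubgroup_isOpen K)
  have hHo := IntermediateField.fixingSubgroup_isOpen K
  have hur' : ∀ τ ∈ Pool.Agent.Y802.GC.UrN S K.fixingSubgroup, ρ τ = 1 :=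
    fun τ ⟨P, hP, hPS, hτ⟩ => hur P hP hPS τ hτ
  let π : Gal(AlgebraicClosure F/F) →* Gal(K/F) := AlgEquiv.restrictNormalHom K
  have hHπ : ∀ σ, σ ∈ K.fixingSubgroup ↔ π σ = 1 := fun σ => by
    rw [← IntermediateField.restrictNormalHom_ker, MonoidHom.mem_ker]
  have hunit : ∀ χ : Gal(K/F) →* ZMod p, ∃ ψ : Gal(K/F) →* (ZMod p)ˣ,
      ∀ σ, (ψ σ : ZMod p) = χ σ := fun χ => ⟨MonoidHom.toHomUnits χ, fun σ => rfl⟩
  have hexc : ∀ (χ : Gal(K/F) →* ZMod p) (ψ : Gal(K/F) →* (ZMod p)ˣ),
      (∀ σ, (ψ σ : ZMod p) = χ σ) →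
      (ψ ∈ Exceptional p S K ↔ (Pool.Agent.R703.FM.Occ p π K.fixingSubgroup χ ∨
        Pool.Agent.R703.FM.Loc p π S χ)) := by
    intro χ ψ hψ
    refine or_congr ⟨?_, ?_⟩ ⟨?_, ?_⟩
    · rintro ⟨f, hf1, hf2, hf3, hf4⟩
      refine ⟨f, hf1, hf2, hf3, fun σ g => ?_⟩
      rw [hf4 σ g _ (MulAut.conjNormal_apply σ g), hψ]
    · rintro ⟨f, hf1, hf2, hf3, hf4⟩
      refine ⟨f, hf1, hf2, hf3, fun σ g g' hg' => ?_⟩
      have h1 : g' = MulAut.conjNormal σ g := by
        apply Subtype.ext
        rw [hg', MulAut.conjNormal_apply]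
      rw [h1, hf4 σ g, hψ]
    · rintro ⟨P, hP, hPS, h⟩
      exact ⟨P, hP, hPS, fun σ Q hσ => by rw [← hψ]; exact h σ Q hσ⟩
    · rintro ⟨P, hP, hPS, h⟩
      exact ⟨P, hP, hPS, fun σ Q hσ => by rw [hψ]; exact h σ Q hσ⟩
  have hsep : ∀ i, 2 ≤ i → i ≤ m → Pool.Agent.Y802.GC.Sepa K.fixingSubgroup p
      (Pool.Agent.Y802.GC.UrN S K.fixingSubgroup) i := by
    intro i hi him
    refine Pool.Agent.R703.FM.sepa_of hexp π (AlgEquiv.restrictNormalHom_surjective _) hHπ
      (fun g τ hτ => Pool.Agent.Y802.GC.UrN_conj S _ g τ hτ)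
      {χ | Pool.Agent.R703.FM.Occ p π K.fixingSubgroup χ ∨ Pool.Agent.R703.FM.Loc p π S χ}
      (fun χ f hf hf1 heq => Pool.Agent.R703.FM.occ_or_loc hS hHo π χ f hf hf1 heq) i ?_
    intro ψ hψ hprod
    choose ψ' hψ' using fun j => hunit (ψ j)
    refine hX i hi him ψ' (fun j => (hexc _ _ (hψ' j)).2 (hψ j)) ?_
    refine (hexc (∏ j, ψ j) (∏ j, ψ' j) fun σ => ?_).2 hprod
    rw [MonoidHom.finsetProd_apply, MonoidHom.finsetProd_apply, Units.coe_prod]
    exact Finset.prod_congr rfl fun j _ => hψ' j σ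
  have hexp' := fun (E : Type) [CommGroup E] [Finite E] (hE : IsPGroup p E)
    (f : K.fixingSubgroup →* E) (hf : IsOpen (f.ker : Set K.fixingSubgroup))
    (hu : ∀ τ ∈ Pool.Agent.Y802.GC.UrN S K.fixingSubgroup, f τ = 1) (g : K.fixingSubgroup) =>
    Pool.Agent.R703.FM.exp_of (e₁ := e₁) (e₂ := e₂) hS hHo
      (fun E _ _ hE f hf hu g => he₁ E hE f hf hu g) he₂ E hE f hf hu g
  rcases hdepth with ⟨hn, hres⟩ | ⟨r, s, hr, hrs, hd⟩
  · exact Pool.Agent.Y802.GC.main_unip hpp hA hfin hp hord
      (fun g τ hτ => Pool.Agent.Y802.GC.UrN_conj S _ g τ hτ) hexp' hsep ρ hρ hur' hn hres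
  · exact Pool.Agent.Y802.GC.main_depth hpp hA hfin hp hord
      (fun g τ hτ => Pool.Agent.Y802.GC.UrN_conj S _ g τ hτ) hexp' hsep ρ hρ hur' hr hrs hd

end Pool.Agent.Results.MP_f68ac8_nt.AbelianExtensions
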