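import Pool.Agent.R417.FK.Tor

/-!
# Two-dimensional 2-adic representations of number fields, ramified at any set of primes

Let `K` be a number field without quadratic extensions which are unramified at all finite primes
(the narrow class number is odd), and let `A` be any Noetherian local ring of residue
characteristic two, with its adic topology. Let `ρ : G_K → GL_2(A)` be a continuous representation
which is residually unipotent and unramified at the primes above `2`, such that for every other
prime `v` of `K` the inertia groups at `v` act trivially modulo `4` and modulo every power of two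
which divides `N(v) - 1`. There is no bound on the number of ramified primes (there may be
infinitely many), and no condition on residue symbols. Then `ρ` is trivial if `2` is a nonzerodivisor
in `A` (for example if `A` is a discrete valuation ring of characteristic zero); for arbitrary `A`
its image is finite if finitely many primes ramify.

For `K = ℚ`, for number fields of degree `2`, `3`, `4` with absolute discriminant at most `6`,
`31`, `158`, and for all number fields without unramified extensions, `ρ` need not be residually
unipotent.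

Proof. Let `I` be the ideal generated by the entries of all `ρ(g) - 1`. For `x = 1 + 2 ^ e a` in the
image of the inertia group at `v` (with `e = max(2, v_2(N(v) - 1))`) and a Frobenius element
`1 + F`, the tame relation gives, modulo `𝔪 I`, that `2 ^ e a` is zero, or `u 2 ^ e a = [F, a]` with
`u` a unit. The trace of `a` is in `𝔪`, and by taking determinants of all elements of the image,
which is generated by the inertia groups, the trace of `F` is in `𝔪 I`. The commutator of two
`2 × 2` matrices of trace zero in characteristic two is a scalar matrix, and it follows that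
`2 ^ e a` is zero modulo `𝔪 I`. Hence `I = 𝔪 I = 0`, by generation and Nakayama's lemma.
-/

set_option autoImplicit false

open NumberField IsLocalRing

namespace Pool.Agent.Results.MP_f68ac8_nt.DimensionTwoNumberFields

/-- the absolute Galois group of the field `K`, with the Krull topology -/
abbrev AbsGal (K : Type) [Field K] : Type := Gal(AlgebraicClosure K/K)

/-- `τ` lies in the inertia group at the ideal `P` of the ring of all algebraic integers. -/
def InInertia {K : Type} [Field K] (P : Ideal (𝓞 (AlgebraicClosure K))) (τ : AbsGal K) : Prop :=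
  ∀ x : 𝓞 (AlgebraicClosure K), τ • x - x ∈ P

/-- Every homomorphism with open kernel from the absolute Galois group of `K` to the group `E`
which is trivial on the inertia groups at all maximal ideals of the ring of all algebraic integers
is trivial. -/
def NoUnramified (K : Type) [Field K] (E : Type) [Group E] : Prop :=
  ∀ f : AbsGal K →* E, IsOpen (f.ker : Set (AbsGal K)) →
    (∀ P : Ideal (𝓞 (AlgebraicClosure K)), P.IsMaximal → ∀ τ, InInertia P τ → f τ = 1) →
    ∀ g, f g = 1

/-- `K` has no quadratic extension which is unramified at all finite primes. -/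
def NoUnramifiedQuadratic (K : Type) [Field K] : Prop := NoUnramified K (Multiplicative (ZMod 2))

/-- `K` has no extension which is unramified at all finite primes. -/
def NoUnramifiedExtension (K : Type) [Field K] : Prop := ∀ (E : Type) [Group E], NoUnramified K E

/-- `K` is the field of rational numbers, or has degree `2`, `3` or `4` and absolute discriminant
at most `6`, `31` or `158`. -/
def SmallDiscriminant (K : Type) [Field K] [NumberField K] : Prop :=
  Module.finrank ℚ K = 1 ∨ (Module.finrank ℚ K = 2 ∧ |discr K| ≤ 6) ∨
    (Module.finrank ℚ K = 3 ∧ |discr K| ≤ 31) ∨ (Module.finrank ℚ K = 4 ∧ |discr K| ≤ 158)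

section

variable {K : Type} [Field K] {A : Type} [CommRing A]

/-- The reductions of all `ρ g - 1` are nilpotent. -/
def ResiduallyUnipotent [IsLocalRing A] (ρ : AbsGal K →* GL (Fin 2) A) : Prop :=
  ∀ g, ∃ M : ℕ, ∀ i j, (((ρ g : Matrix (Fin 2) (Fin 2) A) - 1) ^ M) i j ∈ maximalIdeal A

/-- `ρ` is unramified at the maximal ideal `P` of the ring of all algebraic integers. -/
def UnramifiedAt (ρ : AbsGal K →* GL (Fin 2) A) (P : Ideal (𝓞 (AlgebraicClosure K))) : Prop :=
  ∀ τ, InInertia P τ → ρ τ = 1

/-- `ρ` is unramified at all primes above `2`. -/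
def UnramifiedAboveTwo (ρ : AbsGal K →* GL (Fin 2) A) : Prop :=
  ∀ P : Ideal (𝓞 (AlgebraicClosure K)), P.IsMaximal → (2 : 𝓞 (AlgebraicClosure K)) ∈ P →
    UnramifiedAt ρ P

/-- `ρ` is unramified at all primes that do not lie above a prime number in `S`. -/
def UnramifiedOutside (S : Finset ℕ) (ρ : AbsGal K →* GL (Fin 2) A) : Prop :=
  ∀ P : Ideal (𝓞 (AlgebraicClosure K)), P.IsMaximal →
    (∀ l ∈ S, (l : 𝓞 (AlgebraicClosure K)) ∉ P) → UnramifiedAt ρ P

/-- For every prime `v` of `K` which does not lie above `2` the inertia groups at `v` act trivially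
modulo `2 ^ m` and modulo all powers of two which divide `N(v) - 1`. -/
def InertiaCondition [NumberField K] (m : ℕ) (ρ : AbsGal K →* GL (Fin 2) A) : Prop :=
  ∀ P : Ideal (𝓞 (AlgebraicClosure K)), P.IsMaximal → (2 : 𝓞 (AlgebraicClosure K)) ∉ P →
    ∀ τ, InInertia P τ → ∀ k : ℕ,
      k ≤ m ∨ 2 ^ k ∣ Ideal.absNorm (P.comap (algebraMap (𝓞 K) (𝓞 (AlgebraicClosure K)))) - 1 →
      ∀ i j, (2 : A) ^ k ∣ ((ρ τ : Matrix (Fin 2) (Fin 2) A) - 1) i j

end

theorem result (K : Type) [Field K] [NumberField K] (m : ℕ) (hm : 2 ≤ m)
    (A : Type) [CommRing A] [IsLocalRing A] [IsNoetherianRing A] [TopologicalSpace A]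
    (hA : IsAdic (maximalIdeal A)) (h2A : (2 : A) ∈ maximalIdeal A)
    (ρ : AbsGal K →* GL (Fin 2) A) (hρ : Continuous ρ)
    (hK : SmallDiscriminant K ∨ NoUnramifiedExtension K ∨
      (NoUnramifiedQuadratic K ∧ ResiduallyUnipotent ρ))
    (hur : UnramifiedAboveTwo ρ) (hI : InertiaCondition m ρ) :
    ((∀ a : A, 2 ^ (m + 1) * a = 0 → 2 ^ m * a = 0) → ∀ g, ρ g = 1) ∧
    (∀ S : Finset ℕ, (∀ l ∈ S, l.Prime) → UnramifiedOutside S ρ → (Set.range ρ).Finite) := by
  have hp2 : Fact (Nat.Prime 2) := ⟨Nat.prime_two⟩
  have hcts : ∀ N : ℕ, ∀ᶠ g in nhds (1 : AbsGal K), Pool.Agent.TH831.NA.MJ (maximalIdeal A ^ N)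
      ((ρ g : Matrix (Fin 2) (Fin 2) A) - 1) := fun N => Pool.Agent.TH831.NA.cts_memN hA hρ N
  have hall : Pool.Agent.R417.FK.NoUrAll K ∨ (Pool.Agent.R417.FK.NoUr K 2 ∧
      ResiduallyUnipotent ρ) := by
    rcases hK with (h | h) | h | h
    · exact Or.inl (Pool.Agent.R417.FK.noUrAll_one h)
    · exact Or.inl (Pool.Agent.R417.FK.noUrAll_small h)
    · exact Or.inl h
    · exact Or.inr h
  have hG : Pool.Agent.R417.FK.Good ρ := by
    rcases hall with h | ⟨h1, h2⟩
    · exact Pool.Agent.R417.FK.good_all h hcts
    · exact Pool.Agent.R417.FK.good_p (p := 2) h1 (by exact_mod_cast h2A) hcts h2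
  have hK2 : Pool.Agent.R417.FK.NoUr K 2 := by
    rcases hall with h | ⟨h1, -⟩
    · exact Pool.Agent.R417.FK.noUr_of_all h 2
    · exact h1
  exact Pool.Agent.R417.FK.final h2A hcts hG hK2 hur hm hI

end Pool.Agent.Results.MP_f68ac8_nt.DimensionTwoNumberFields
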