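import Pool.Agent.R401.Sup4

/-!
# Fontaine–Mazur for representations with divisible traces of Frobenius elements

Let `K` be a number field and `ρ : G_K → GL_n(F)` a continuous semisimple representation over a
`p`-adic field `F`.  Suppose that for the places `v` in a set `P` the trace `a_v` of the Frobenius
elements lies in a number field `E` and is divisible by `N(v) ^ (w / 2)`, in the sense that
`a_v ^ 2 / N(v) ^ w` is an algebraic integer (up to a bounded denominator), as for the
supersingular places of a motive of weight `w`.  We prove: if

* the complement of `P` has lower density less than `1 / n ^ 2`,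
* the absolute values of `a_v ^ 2 / N(v) ^ w`, in all complex embeddings of `E`, have bounded mean
  value over the places in `P` (along the same sequence of bounds for `N(v)`; for a representation
  which is pure of weight `w` they are bounded by `n ^ 2`),

then `w = 2 u` is even and the Tate twist `ρ(-u)` has finite image; it is a subrepresentation of
the zeroth cohomology of a zero-dimensional smooth projective variety over `K`, so that `ρ` is of
the form predicted by the conjecture of Fontaine and Mazur.

Nothing is assumed on the ramification of `ρ` (it may be ramified at infinitely many places), at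
the places above `p` (`ρ` need not be de Rham) and at the places outside of `P`.  There is no such
representation of odd weight.  The bound `1 / n ^ 2` cannot be replaced by a larger one: the twist of
an irreducible representation of a Heisenberg group of order `n ^ 3` by a character of infinite
order has trace zero at all places outside of a set of density `1 / n ^ 2`.

Proof.  By Chebotarev's theorem over `K` (from the library), for closed sets, the elements `g` such
that all `g h_j` are limits of Frobenius elements from `P`, for a basis `h_j` of the algebra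
generated by the image, are not contained in finitely many cosets of a closed subgroup of infinite
index.  By the nondegeneracy of the trace form they lie in finitely many cosets of the group of
all `x` such that `ρ(x)` is a scalar `r` with `r ^ 2 = χ(x) ^ w`.
-/

set_option autoImplicit false

namespace Pool.Agent.Results.MP_f68ac8_nt.DivisibleTraces

open NumberField IsDedekindDomain Filter Matrix

/-- the absolute Galois group of the field `K`, with the Krull topology -/
abbrev AbsGal (K : Type) [Field K] : Type := Gal(AlgebraicClosure K/K)

/-- `g` is an (arithmetic) Frobenius element at a maximal ideal `Q` of the ring of all algebraic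
integers which lies above the finite place `v` of `K`. -/
def IsFrobenius {K : Type} [Field K] [NumberField K] (v : HeightOneSpectrum (𝓞 K))
    (g : AbsGal K) : Prop :=
  ∃ Q : Ideal (𝓞 (AlgebraicClosure K)), Q.IsMaximal ∧
    Q.comap (algebraMap (𝓞 K) (𝓞 (AlgebraicClosure K))) = v.asIdeal ∧
    ∀ x : 𝓞 (AlgebraicClosure K), g • x - x ^ Ideal.absNorm v.asIdeal ∈ Q

/-- the finite places of `K` whose norm is at most `x` -/
def placesUpTo (K : Type) [Field K] [NumberField K] (x : ℕ) : Set (HeightOneSpectrum (𝓞 K)) :=
  {v | Ideal.absNorm v.asIdeal ≤ x}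

/-- the `p`-adic cyclotomic character of the absolute Galois group of `K` -/
noncomputable def chi (K : Type) [Field K] (p : ℕ) [Fact p.Prime] (g : AbsGal K) : ℚ_[p] :=
  ((cyclotomicCharacter (AlgebraicClosure K) p
    (MulSemiringAction.toRingAut (AbsGal K) (AlgebraicClosure K) g) : ℤ_[p]ˣ) : ℤ_[p])

section
variable {K F : Type} [Field K] [Field F] {n : ℕ}

/-- the matrix of `g` -/
noncomputable def mat (ρ : AbsGal K →* GL (Fin n) F) (g : AbsGal K) : Matrix (Fin n) (Fin n) F :=
  (ρ g : GL (Fin n) F)

/-- `U` is a subrepresentation of `ρ`. -/
def Stable (ρ : AbsGal K →* GL (Fin n) F) (U : Submodule F (Fin n → F)) : Prop :=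
  ∀ g, ∀ x ∈ U, mat ρ g *ᵥ x ∈ U

/-- `ρ` is semisimple (for example irreducible). -/
def Semisimple (ρ : AbsGal K →* GL (Fin n) F) : Prop :=
  ∀ U, Stable ρ U → ∃ U', Stable ρ U' ∧ IsCompl U U'

end

/-- **Divisible traces.**

Let `K` be a number field, `p` a prime number, `F` an extension of `ℚ_p` with an absolute value
which extends the `p`-adic one (for example `ℚ_p`, a finite extension, or the completion of an
algebraic closure), and `ρ : G_K → GL_n(F)`, `n > 0`, a continuous semisimple representation. Let `w`
be an integer, `P` a set of finite places of `K`, and `E` a number field with an embedding `τ` in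
`F`. For `v ∈ P` let the Frobenius elements at `v` have the trace `a v ∈ E`, and let
`d a_v ^ 2 = N(v) ^ w b_v` with an integer `b_v` of `E` (`d > 0` is a fixed natural number).

Let `θ` be less than `1 / n ^ 2`. Suppose that for arbitrarily large `x` there are at most `θ π(x)`
places outside of `P` of norm at most `x`, and that for the same `x` the sum of the absolute values
of all complex conjugates of `b_v`, over all `v ∈ P` of norm at most `x`, is at most `C π(x)`.

Then `w = 2 u` with an integer `u`, and there are a finite set `T` with a continuous action of `G_K`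
and an injective `G_K`-equivariant linear map from the Tate twist `ρ(-u)` to the space of functions
from `T` to `F` (which is the zeroth étale cohomology of the finite étale scheme over `K` with the
geometric points `T`). -/
theorem result {K : Type} [Field K] [NumberField K] (p : ℕ) [Fact p.Prime] {F : Type}
    [NormedField F] [NormedAlgebra ℚ_[p] F] {n : ℕ} (hn : 0 < n)
    (ρ : AbsGal K →* GL (Fin n) F) (hρ : Continuous ρ) (hss : Semisimple ρ)
    {E : Type} [Field E] [NumberField E] (τ : E →+* F) (w : ℤ)
    (P : Set (HeightOneSpectrum (𝓞 K))) (a : HeightOneSpectrum (𝓞 K) → E)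
    (b : HeightOneSpectrum (𝓞 K) → 𝓞 E) {d : ℕ} (hd : 0 < d)
    (htr : ∀ v ∈ P, ∀ g, IsFrobenius v g → (mat ρ g).trace = τ (a v))
    (hdiv : ∀ v ∈ P, (d : E) * a v ^ 2 = (Ideal.absNorm v.asIdeal : E) ^ w * b v)
    (θ C : ℝ) (hθ : θ < 1 / (n : ℝ) ^ 2)
    (hP : ∃ᶠ x : ℕ in atTop, ((placesUpTo K x \ P).ncard : ℝ) ≤ θ * Nat.primeCounting x ∧
      ∑ᶠ v ∈ placesUpTo K x ∩ P, ∑ σ : E →+* ℂ, ‖σ (b v)‖ ≤ C * Nat.primeCounting x) :
    ∃ u : ℤ, w = 2 * u ∧ ∃ (T : Type) (_ : Finite T) (_ : MulAction (AbsGal K) T),
      (∀ t : T, IsOpen (MulAction.stabilizer (AbsGal K) t : Set (AbsGal K))) ∧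
      ∃ J : (Fin n → F) →ₗ[F] (T → F), Function.Injective J ∧
        ∀ (g : AbsGal K) (x : Fin n → F) (t : T),
          J ((algebraMap ℚ_[p] F (chi K p g)) ^ (-u) • (mat ρ g *ᵥ x)) t = J x (g⁻¹ • t) := by
  have hchar : CharZero F := charZero_of_injective_algebraMap (algebraMap ℚ_[p] F).injective
  have hn2 : (0 : ℝ) < (n : ℝ) ^ 2 := by positivity
  obtain ⟨h2, hN⟩ := Pool.Agent.R401.Sup3.main (p := p) hn ρ hρ hss w P τ a b hd hdiv htr θ C
    ((lt_div_iff₀ hn2).1 hθ) (by
      refine (hP.and_eventually (Nat.tendsto_primeCounting.eventually_gt_atTop 0)).mono ?_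
      rintro N ⟨⟨h1, h2⟩, h3⟩
      refine ⟨?_, h2⟩
      have h4 : (0 : ℝ) < (Nat.primeCounting N : ℝ) := by exact_mod_cast h3
      unfold Pool.Agent.W401.Cheb.dens
      rw [div_le_iff₀ h4]
      exact h1)
  obtain ⟨u, rfl⟩ := h2
  refine ⟨u, rfl, ?_⟩
  exact Pool.Agent.R401.Sup4.embed hn ρ hρ (Pool.Agent.R401.Sup3.cyc K p F)
    (Pool.Agent.R401.Sup3.continuous_cyc K p F) u hN

end Pool.Agent.Results.MP_f68ac8_nt.DivisibleTraces
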