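import Mathlib
import Pool.Agent.R384.Z.AbsH

/-!
# The Fontaine–Mazur conjecture for potentially ordinary representations of the Galois groups of
# the fields in the `2`-extensions of `ℚ(√-d)` and of `ℚ`

Let `k` and `S` be one of the following.

* `k = ℚ(√-d)` and `S = {2}`, where `d` is a prime number that is `7` modulo `16`, or the product of
  a prime number that is `5` modulo `8` and of a prime number that is `3` modulo `8`.
* `k = ℚ` and `S = {2, q}`, where `q` is a prime number that is `3` or `5` modulo `8`.

Let `L ⊇ k` be a field contained in a finite Galois extension `M / k` of degree a power of `2`,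
unramified at the primes outside `S` (there is no condition at infinity); there is no condition on the
structure of the Galois group of `M / k`, and `L / k` need not be Galois.

Let `E` be a finite extension of `ℚ_2` (or the fraction field of any Noetherian local domain with
finite residue field of characteristic `2`), and let `V` be a continuous irreducible
`E`-representation of `G_L`, of any dimension `n`, which is unramified outside `S` and residually
unipotent.

Theorem: if at ONE place of `L` above `2` the representation `V` potentially contains a line (for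
example if `V` is potentially ordinary at this place), then `V` is potentially abelian: there is a
finite Galois extension of `L` whose Galois group acts on `V` through an abelian group.

Proof. The decomposition group at one place above `2` is dense in the maximal pro-`2` quotient of
`G_L` unramified outside `S`, by the theorem of Burnside and the computation of the quadratic
extensions of `k`. So the subspaces which are potentially stable under the decomposition group are
potentially stable under `G_L`.
-/

set_option autoImplicit false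

namespace Pool.Agent.Results.MP_f68ac8_nt.PotentiallyLocalLine

open Matrix IsLocalRing

/-- An algebraic closure of `ℚ`. -/
abbrev QBar : Type := AlgebraicClosure ℚ

/-- The field `ℚ(s)`. It is `ℚ(√-d)` if `s² = -d`. -/
noncomputable abbrev K (s : QBar) : IntermediateField ℚ QBar := IntermediateField.adjoin ℚ {s}

/-- The absolute Galois group of `k` (it will be `ℚ(√-d)` or `ℚ`). -/
def Gal (k : Type) [Field k] [Algebra k QBar] : Type := QBar ≃ₐ[k] QBar

/-- its group structure -/
noncomputable instance instGroupGal (k : Type) [Field k] [Algebra k QBar] : Group (Gal k) :=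
  AlgEquiv.aut (R := k) (A₁ := QBar)

/-- its Krull topology -/
noncomputable instance instTopGal (k : Type) [Field k] [Algebra k QBar] :
    TopologicalSpace (Gal k) := krullTopology k QBar

/-- The action of the Galois group on `ℚ̄`. -/
noncomputable def app {k : Type} [Field k] [Algebra k QBar] (σ : Gal k) (x : QBar) : QBar :=
  (show QBar ≃ₐ[k] QBar from σ) x

/-- The class of the numbers `d`: the primes `7 mod 16`, and the products of a prime `5 mod 8` and of
a prime `3 mod 8`. -/
def InClass (d : ℕ) : Prop :=
  (d.Prime ∧ d % 16 = 7) ∨ ∃ p q : ℕ, p.Prime ∧ q.Prime ∧ p % 8 = 5 ∧ q % 8 = 3 ∧ d = p * q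

/-- The decomposition group of the place given by the embedding `ι` of `ℚ̄`. -/
def Dec {k : Type} [Field k] [Algebra k QBar] {p : ℕ} [Fact p.Prime]
    (ι : QBar →ₐ[ℚ] PadicAlgCl p) : Set (Gal k) :=
  {σ | ∃ τ : PadicAlgCl p ≃ₐ[ℚ_[p]] PadicAlgCl p, ∀ x, τ (ι x) = ι (app σ x)}

/-- Its inertia group: the automorphisms which are trivial on the residue field. -/
def Inr {k : Type} [Field k] [Algebra k QBar] {p : ℕ} [Fact p.Prime]
    (ι : QBar →ₐ[ℚ] PadicAlgCl p) : Set (Gal k) :=
  {σ | ∃ τ : PadicAlgCl p ≃ₐ[ℚ_[p]] PadicAlgCl p, (∀ x, τ (ι x) = ι (app σ x)) ∧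
    ∀ z : PadicAlgCl p, ‖z‖ ≤ 1 → ‖τ z - z‖ < 1}

/-- `N` is the Galois group of `ℚ̄ / M` for a finite Galois extension `M / k` whose degree is a
power of `2` and which is unramified at the primes outside `S`: `N` is a normal open subgroup of index
a power of `2` and contains the inertia groups of the primes outside `S`. -/
structure TwoExtension {k : Type} [Field k] [Algebra k QBar] (S : Set ℕ) (N : Subgroup (Gal k)) :
    Prop where
  isOpen : IsOpen (N : Set (Gal k))
  normal : N.Normal
  index : ∃ a : ℕ, N.index = 2 ^ a
  unramified : ∀ (p : ℕ) [Fact p.Prime] (ι : QBar →ₐ[ℚ] PadicAlgCl p), p ∉ S →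
    ∀ σ ∈ (Inr ι : Set (Gal k)), σ ∈ N

/-- The representation `ρ` of the absolute Galois group `H` of `L` is continuous, residually
unipotent and unramified outside `S`. -/
structure Admissible {k : Type} [Field k] [Algebra k QBar] (S : Set ℕ) {H : Subgroup (Gal k)}
    {A : Type} [CommRing A] [IsLocalRing A] [TopologicalSpace A] {n : ℕ} (ρ : H →* GL (Fin n) A) :
    Prop where
  cont : ∀ i j, Continuous fun σ => (ρ σ : Matrix (Fin n) (Fin n) A) i j
  unipotent : ∀ σ, ∃ m : ℕ, ∀ i j,
    (((ρ σ : Matrix (Fin n) (Fin n) A) - 1) ^ m) i j ∈ maximalIdeal A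
  unramified : ∀ (p : ℕ) [Fact p.Prime] (ι : QBar →ₐ[ℚ] PadicAlgCl p), p ∉ S →
    ∀ σ : H, (σ : Gal k) ∈ Inr ι → ρ σ = 1

/-- The action of `σ` on `V = F ^ n`. -/
noncomputable def act {k : Type} [Field k] [Algebra k QBar] {H : Subgroup (Gal k)} {A : Type}
    [CommRing A] (F : Type) [Field F] [Algebra A F] {n : ℕ} (ρ : H →* GL (Fin n) A) (σ : H)
    (v : Fin n → F) : Fin n → F :=
  ((ρ σ : Matrix (Fin n) (Fin n) A).map (algebraMap A F)) *ᵥ v

/-- `V` is irreducible. -/
def Irreducible {k : Type} [Field k] [Algebra k QBar] {H : Subgroup (Gal k)} {A : Type}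
    [CommRing A] (F : Type) [Field F] [Algebra A F] {n : ℕ} (ρ : H →* GL (Fin n) A) : Prop :=
  ∀ W : Submodule F (Fin n → F), (∀ σ, ∀ w ∈ W, act F ρ σ w ∈ W) → W = ⊥ ∨ W = ⊤

/-- `V` potentially contains a line on `D`: some nonzero vector of `V` is an eigenvector of all
elements of a subgroup `D'` of `H`, finitely many left cosets of which cover the elements of `H` which
are in `D`. -/
def PotentialLine {k : Type} [Field k] [Algebra k QBar] {H : Subgroup (Gal k)} {A : Type}
    [CommRing A] (F : Type) [Field F] [Algebra A F] {n : ℕ} (ρ : H →* GL (Fin n) A)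
    (D : Set (Gal k)) : Prop :=
  ∃ (D' : Subgroup H) (R : Set H) (v : Fin n → F), R.Finite ∧
    (∀ δ : H, (δ : Gal k) ∈ D → ∃ r ∈ R, r⁻¹ * δ ∈ D') ∧ v ≠ 0 ∧
    ∀ δ ∈ D', ∃ c : F, act F ρ δ v = c • v

/-- The representation is potentially abelian: the elements of an open normal subgroup act by
commuting matrices. -/
def PotentiallyAbelian {k : Type} [Field k] [Algebra k QBar] {H : Subgroup (Gal k)} {A : Type}
    [CommRing A] {n : ℕ} (ρ : H →* GL (Fin n) A) : Prop :=
  ∃ S : Subgroup H, S.Normal ∧ S.FiniteIndex ∧ IsOpen (S : Set H) ∧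
    ∀ σ ∈ S, ∀ τ ∈ S, ρ σ * ρ τ = ρ τ * ρ σ

/-- The assertion for the fields `L` in the `2`-extensions of `k` unramified outside `S`: irreducible
representations which potentially contain a line at one place above `2` are potentially abelian. -/
def OneLineSuffices (k : Type) [Field k] [Algebra k QBar] (S : Set ℕ) : Prop :=
  ∀ H N : Subgroup (Gal k), N ≤ H → TwoExtension S N →
    ∀ (A : Type) [CommRing A] [IsLocalRing A] [IsNoetherianRing A] [TopologicalSpace A],
      IsAdic (maximalIdeal A) → Finite (ResidueField A) → (2 : A) ∈ maximalIdeal A →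
    ∀ (F : Type) [Field F] [Algebra A F] [IsFractionRing A F] (n : ℕ) (ρ : H →* GL (Fin n) A),
      Admissible S ρ → Irreducible F ρ → ∀ ι : QBar →ₐ[ℚ] PadicAlgCl 2,
        PotentialLine F ρ (Dec ι) → PotentiallyAbelian ρ

/-- **Irreducible representations which potentially contain a line at one place above `2` are
potentially abelian.** -/
theorem result :
    (∀ d : ℕ, InClass d → ∀ s : QBar, s ^ 2 = -(d : QBar) → OneLineSuffices (K s) {2}) ∧
    (∀ q : ℕ, q.Prime → q % 8 = 3 ∨ q % 8 = 5 → OneLineSuffices ℚ {2, q}) := by
  constructor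
  · intro d hd s hs H N hNH hN A _ _ _ _ hA hfin h2 F _ _ _ n ρ hρ hirr ι hline
    obtain ⟨D', R, v, hRf, hR, hv, hD'⟩ := hline
    exact Pool.Agent.Z384.fmline hs hd hNH hN.normal hN.index hN.isOpen
      (fun p _ ι hp σ hσ => hN.unramified p ι (by simpa using hp) σ hσ) hA hfin h2
      hρ.cont hρ.unipotent (fun p _ ι hp σ hσ => hρ.unramified p ι (by simpa using hp) σ hσ) ι
      hRf hR hirr hv hD'
  · intro q hq hq8 H N hNH hN A _ _ _ _ hA hfin h2 F _ _ _ n ρ hρ hirr ι hline
    obtain ⟨D', R, v, hRf, hR, hv, hD'⟩ := hline
    exact Pool.Agent.Z384.fmHQ hq hq8 hNH hN.normal hN.index hN.isOpen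
      (fun p _ ι hp hpq σ hσ => hN.unramified p ι (by simp [hp, hpq]) σ hσ) hA hfin h2
      hρ.cont hρ.unipotent
      (fun p _ ι hp hpq σ hσ => hρ.unramified p ι (by simp [hp, hpq]) σ hσ) ι
      hRf hR hirr hv hD'

end Pool.Agent.Results.MP_f68ac8_nt.PotentiallyLocalLine
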